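import Pool.Agent.helper26.EC.SpecE

set_option autoImplicit false

namespace Pool.Agent.EC

open Finset ArithmeticFunction
open Pool.Agent.CH (Win rgh dl eU Mo ClP ClB)

open Classical in
/-- tuples of primes on `S`, equal to one outside `S`, with product dividing `k` -/
noncomputable def TLF_P {r : ℕ} (N : ℕ) (a b : Fin r → ℝ) (S : Finset (Fin r)) (k : ℕ) : Finset (Fin r → ℕ) :=
  (Fintype.piFinset fun _ : Fin r => k.divisors).filter fun p =>
    (∀ i ∈ S, (p i).Prime ∧ (N : ℝ) ^ a i ≤ (p i : ℝ) ∧ (p i : ℝ) < (N : ℝ) ^ b i) ∧ (∀ i, i ∉ S → p i = 1) ∧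
      ∏ i, p i ∣ k

theorem TLF_mem {r : ℕ} {N : ℕ} {a b : Fin r → ℝ} {S : Finset (Fin r)} {k : ℕ} {p : Fin r → ℕ} :
    p ∈ TLF_P N a b S k ↔ (∀ i, p i ∣ k ∧ k ≠ 0) ∧
      (∀ i ∈ S, (p i).Prime ∧ (N : ℝ) ^ a i ≤ (p i : ℝ) ∧ (p i : ℝ) < (N : ℝ) ^ b i) ∧ (∀ i, i ∉ S → p i = 1) ∧
      ∏ i, p i ∣ k := by
  classical
  unfold TLF_P
  rw [Finset.mem_filter, Fintype.mem_piFinset]
  simp only [Nat.mem_divisors]

theorem TLF_prod {r : ℕ} (S : Finset (Fin r)) (p : Fin r → ℕ) (h : ∀ i, i ∉ S → p i = 1) :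
    ∏ i, p i = ∏ i ∈ S, p i :=
  (Finset.prod_subset (Finset.subset_univ S) fun i _ hi => h i hi).symm

theorem TLF_card {r : ℕ} (N : ℕ) (hN : 2 ≤ N) (a b : Fin r → ℝ) (κ : ℝ) (hκ : 0 < κ) (ha : ∀ i, κ ≤ a i)
    (S : Finset (Fin r)) (k : ℕ) (hk : 1 ≤ k) (hk4 : (k : ℝ) ≤ (N : ℝ) ^ (4 : ℝ)) :
    (#(TLF_P N a b S k) : ℝ) ≤ (4 / κ + 1) ^ r := by
  classical
  have hN1 : (1 : ℝ) < N := by exact_mod_cast (by omega : 1 < N)
  have hN0 : (0 : ℝ) < N := by linarith
  set Q : Finset ℕ := k.primeFactors.filter fun q => (N : ℝ) ^ κ ≤ (q : ℝ) with hQ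
  have hQc : (#Q : ℝ) ≤ 4 / κ := by
    have h1 : ((N : ℝ) ^ κ) ^ (#Q) ≤ ∏ q ∈ Q, (q : ℝ) := by
      rw [← Finset.prod_const]
      refine Finset.prod_le_prod (fun _ _ => by positivity) fun q hq => ?_
      rw [hQ, Finset.mem_filter] at hq
      exact hq.2
    have h2 : ∏ q ∈ Q, q ∣ k :=
      (Finset.prod_dvd_prod_of_subset _ _ _ (Finset.filter_subset _ _)).trans (Nat.prod_primeFactors_dvd k)
    have h3 : ∏ q ∈ Q, (q : ℝ) ≤ k := by
      have h := (Nat.cast_le (α := ℝ)).mpr (Nat.le_of_dvd hk h2)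
      rwa [Nat.cast_prod] at h
    have h4 : (N : ℝ) ^ (κ * (#Q : ℝ)) ≤ (N : ℝ) ^ (4 : ℝ) := by
      rw [Real.rpow_mul hN0.le, Real.rpow_natCast]
      exact h1.trans (h3.trans hk4)
    have h5 : κ * (#Q : ℝ) ≤ 4 := (Real.rpow_le_rpow_left_iff hN1).mp h4
    rw [le_div_iff₀ hκ]
    linarith
  have hsub : TLF_P N a b S k ⊆ Fintype.piFinset fun _ : Fin r => insert 1 Q := by
    intro p hp
    rw [TLF_mem] at hp
    rw [Fintype.mem_piFinset]
    intro i
    rw [Finset.mem_insert]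
    by_cases hi : i ∈ S
    · right
      obtain ⟨h1, h2, _⟩ := hp.2.1 i hi
      rw [hQ, Finset.mem_filter, Nat.mem_primeFactors]
      refine ⟨⟨h1, (hp.1 i).1, (hp.1 i).2⟩, ?_⟩
      exact (Real.rpow_le_rpow_of_exponent_le hN1.le (ha i)).trans h2
    · left
      exact hp.2.2.1 i hi
  have hc := Finset.card_le_card hsub
  rw [Fintype.card_piFinset_const] at hc
  have h6 : (#(insert 1 Q) : ℝ) ≤ 4 / κ + 1 := by
    have : #(insert 1 Q) ≤ #Q + 1 := Finset.card_insert_le _ _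
    have h7 : (#(insert 1 Q) : ℝ) ≤ #Q + 1 := by exact_mod_cast this
    linarith
  calc (#(TLF_P N a b S k) : ℝ) ≤ (#(insert 1 Q) : ℝ) ^ r := by exact_mod_cast hc
    _ ≤ (4 / κ + 1) ^ r := pow_le_pow_left₀ (Nat.cast_nonneg _) h6 r

theorem TLF_range {r : ℕ} {N : ℕ} (hN : 2 ≤ N) {a b : Fin r → ℝ} {S : Finset (Fin r)} {k : ℕ} {p : Fin r → ℕ}
    (hp : p ∈ TLF_P N a b S k) :
    (N : ℝ) ^ (∑ i ∈ S, a i) ≤ ((∏ i, p i : ℕ) : ℝ) ∧ ((∏ i, p i : ℕ) : ℝ) ≤ (N : ℝ) ^ (∑ i ∈ S, b i) := by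
  have hN0 : (0 : ℝ) < N := by exact_mod_cast (by omega : 0 < N)
  rw [TLF_mem] at hp
  rw [TLF_prod S p hp.2.2.1, Real.rpow_sum_of_pos hN0, Real.rpow_sum_of_pos hN0]
  push_cast
  constructor
  · exact Finset.prod_le_prod (fun _ _ => by positivity) fun i hi => (hp.2.1 i hi).2.1
  · exact Finset.prod_le_prod (fun _ _ => by positivity) fun i hi => (hp.2.1 i hi).2.2.le

theorem TLF_split {r : ℕ} (N : ℕ) (a b : Fin r → ℝ) (S : Finset (Fin r)) (j k : ℕ) (hj : j ≠ 0) (hkj : k ∣ j) :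
    ∑ p ∈ (TUP N a b j).filter (fun p => ∏ i ∈ S, p i = k), (vonMangoldt (j / ∏ i, p i) : ℝ) =
      ∑ w ∈ ((TLF_P N a b S k).filter fun p => ∏ i, p i = k) ×ˢ TLF_P N a b Sᶜ (j / k),
        vonMangoldt ((j / k) / ∏ i, w.2 i) := by
  classical
  obtain ⟨e, rfl⟩ := hkj
  have hk0 : k ≠ 0 := fun h => hj (by rw [h, zero_mul])
  have he0 : e ≠ 0 := fun h => hj (by rw [h, mul_zero])
  have hek : k * e / k = e := Nat.mul_div_cancel_left e (Nat.pos_of_ne_zero hk0)
  rw [hek]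
  have hTUP : ∀ p : Fin r → ℕ, p ∈ (TUP N a b (k * e)).filter (fun p => ∏ i ∈ S, p i = k) ↔
      ((∀ i, (p i).Prime ∧ p i ∣ k * e) ∧ (∀ i, (N : ℝ) ^ a i ≤ (p i : ℝ) ∧ (p i : ℝ) < (N : ℝ) ^ b i) ∧
        ∏ i, p i ∣ k * e) ∧ ∏ i ∈ S, p i = k := by
    intro p
    unfold TUP
    rw [Finset.mem_filter, Finset.mem_filter, Fintype.mem_piFinset]
    simp only [Nat.mem_primeFactors]
    constructor
    · rintro ⟨⟨h1, h2, h3⟩, h4⟩
      exact ⟨⟨fun i => ⟨(h1 i).1, (h1 i).2.1⟩, h2, h3⟩, h4⟩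
    · rintro ⟨⟨h1, h2, h3⟩, h4⟩
      exact ⟨⟨fun i => ⟨(h1 i).1, (h1 i).2, hj⟩, h2, h3⟩, h4⟩
  have hcompl : ∀ p : Fin r → ℕ, ∏ i, p i = (∏ i ∈ S, p i) * ∏ i ∈ Sᶜ, p i := fun p =>
    (Finset.prod_mul_prod_compl S p).symm
  refine Finset.sum_nbij' (fun p => ((fun i => if i ∈ S then p i else 1 : Fin r → ℕ),
      (fun i => if i ∈ S then 1 else p i : Fin r → ℕ))) (fun w i => w.1 i * w.2 i) ?_ ?_ ?_ ?_ ?_
  · intro p hp
    rw [hTUP] at hp
    obtain ⟨⟨h1, h2, h3⟩, h4⟩ := hp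
    have hpe : ∏ i ∈ Sᶜ, p i ∣ e := by
      rw [hcompl p, h4] at h3
      exact Nat.dvd_of_mul_dvd_mul_left (Nat.pos_of_ne_zero hk0) h3
    have hu : ∏ i, (if i ∈ S then p i else 1) = k := by
      rw [TLF_prod S _ (fun i hi => if_neg hi), ← h4]
      exact Finset.prod_congr rfl fun i hi => if_pos hi
    have hv : ∏ i, (if i ∈ S then 1 else p i) = ∏ i ∈ Sᶜ, p i := by
      rw [TLF_prod Sᶜ _ (fun i hi => if_pos (by simpa using hi))]
      exact Finset.prod_congr rfl fun i hi => if_neg (by simpa using hi)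
    rw [Finset.mem_product, Finset.mem_filter, TLF_mem, TLF_mem]
    refine ⟨⟨⟨?_, ?_, ?_, ?_⟩, hu⟩, ?_, ?_, ?_, ?_⟩
    · intro i
      refine ⟨?_, hk0⟩
      dsimp only
      split_ifs with hi
      · rw [← h4]
        exact Finset.dvd_prod_of_mem p hi
      · exact one_dvd k
    · intro i hi
      dsimp only
      rw [if_pos hi]
      exact ⟨(h1 i).1, h2 i⟩
    · intro i hi
      exact if_neg hi
    · dsimp only
      rw [hu]
    · intro i
      refine ⟨?_, he0⟩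
      dsimp only
      split_ifs with hi
      · exact one_dvd e
      · exact (Finset.dvd_prod_of_mem p (Finset.mem_compl.mpr hi)).trans hpe
    · intro i hi
      dsimp only
      rw [if_neg (by simpa using hi)]
      exact ⟨(h1 i).1, h2 i⟩
    · intro i hi
      exact if_pos (by simpa using hi)
    · dsimp only
      rw [hv]
      exact hpe
  · intro w hw
    rw [Finset.mem_product, Finset.mem_filter, TLF_mem, TLF_mem] at hw
    obtain ⟨⟨⟨h1, h2, h3, h4⟩, h5⟩, h6, h7, h8, h9⟩ := hw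
    rw [hTUP]
    have hS : ∀ i ∈ S, w.2 i = 1 := fun i hi => h8 i (by simpa using hi)
    refine ⟨⟨?_, ?_, ?_⟩, ?_⟩
    · intro i
      by_cases hi : i ∈ S
      · rw [hS i hi, mul_one]
        exact ⟨(h2 i hi).1, (h1 i).1.mul_right e⟩
      · rw [h3 i hi, one_mul]
        exact ⟨(h7 i (Finset.mem_compl.mpr hi)).1, (h6 i).1.mul_left k⟩
    · intro i
      by_cases hi : i ∈ S
      · rw [hS i hi, mul_one]
        exact (h2 i hi).2
      · rw [h3 i hi, one_mul]
        exact (h7 i (Finset.mem_compl.mpr hi)).2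
    · rw [Finset.prod_mul_distrib, h5]
      exact Nat.mul_dvd_mul_left k h9
    · rw [Finset.prod_mul_distrib, ← TLF_prod S w.1 h3, h5, Finset.prod_congr rfl hS, Finset.prod_const_one, mul_one]
  · intro p hp
    funext i
    dsimp only
    split_ifs <;> simp
  · intro w hw
    rw [Finset.mem_product, Finset.mem_filter, TLF_mem, TLF_mem] at hw
    obtain ⟨⟨⟨h1, h2, h3, h4⟩, h5⟩, h6, h7, h8, h9⟩ := hw
    have hS : ∀ i ∈ S, w.2 i = 1 := fun i hi => h8 i (by simpa using hi)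
    refine Prod.ext ?_ ?_
    · funext i
      dsimp only
      split_ifs with hi
      · rw [hS i hi, mul_one]
      · exact (h3 i hi).symm
    · funext i
      dsimp only
      split_ifs with hi
      · exact (hS i hi).symm
      · rw [h3 i hi, one_mul]
  · intro p hp
    rw [hTUP] at hp
    obtain ⟨⟨h1, h2, h3⟩, h4⟩ := hp
    have hv : ∏ i, (if i ∈ S then 1 else p i) = ∏ i ∈ Sᶜ, p i := by
      rw [TLF_prod Sᶜ _ (fun i hi => if_pos (by simpa using hi))]
      exact Finset.prod_congr rfl fun i hi => if_neg (by simpa using hi)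
    dsimp only
    rw [hv, hcompl p, h4, ← Nat.div_div_eq_div_mul, hek]

theorem TLF : TLF_stmt := by
  classical
  intro r a b hAd δ hδ hGd
  obtain ⟨hr, hab, hsa, hsb⟩ := hAd
  obtain ⟨S, hS1, hS2⟩ := hGd
  have : Nonempty (Fin r) := ⟨⟨0, by omega⟩⟩
  obtain ⟨i₀, _, hi₀⟩ := Finset.exists_min_image (Finset.univ : Finset (Fin r)) a Finset.univ_nonempty
  set κ : ℝ := a i₀ with hκdef
  have hκ : 0 < κ := (hab i₀).1
  have hκa : ∀ i, κ ≤ a i := fun i => hi₀ i (Finset.mem_univ i)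
  set M : ℝ := (4 / κ + 1) ^ r with hM
  have hM1 : 1 ≤ M := by
    rw [hM]
    have : 0 < 4 / κ := by positivity
    exact one_le_pow₀ (by linarith)
  refine ⟨⌈Real.exp (4 * M)⌉₊ + 64, fun N hN => ?_⟩
  have hN64 : 64 ≤ N := by omega
  have hNe : Real.exp (4 * M) ≤ N := by
    have h1 : (⌈Real.exp (4 * M)⌉₊ : ℝ) ≤ N := by exact_mod_cast (by omega : ⌈Real.exp (4 * M)⌉₊ ≤ N)
    exact (Nat.le_ceil _).trans h1
  have hL : 4 * M ≤ Real.log N := by
    have := Real.log_le_log (Real.exp_pos _) hNe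
    rwa [Real.log_exp] at this
  have hN1 : (1 : ℝ) < N := by exact_mod_cast (by omega : 1 < N)
  have hN0 : (0 : ℝ) < N := by linarith
  have hN64r : (64 : ℝ) ≤ N := by exact_mod_cast hN64
  have hN4 : (N : ℝ) ^ (4 : ℝ) = (N : ℝ) ^ 4 := by
    rw [← Real.rpow_natCast]
    norm_num
  set α : ℕ → ℝ := fun k => (#((TLF_P N a b S k).filter fun p => ∏ i, p i = k) : ℝ) with hα
  set β : ℕ → ℝ := fun k => if (N : ℝ) ^ (1 + δ / 2) ≤ k ∧ k ≤ 64 * N ^ 3 then
    ∑ p ∈ TLF_P N a b Sᶜ k, (vonMangoldt (k / ∏ i, p i) : ℝ) else 0 with hβ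
  have hαk : ∀ k, α k ≠ 0 → (N : ℝ) ^ (1 + δ) ≤ k ∧ (k : ℝ) ≤ (N : ℝ) ^ (2 - δ) := by
    intro k hk
    have h1 : ((TLF_P N a b S k).filter fun p => ∏ i, p i = k).Nonempty := by
      rw [Finset.nonempty_iff_ne_empty]
      intro h
      apply hk
      simp only [hα, h, Finset.card_empty, Nat.cast_zero]
    obtain ⟨p, hp⟩ := h1
    rw [Finset.mem_filter] at hp
    obtain ⟨h2, h3⟩ := TLF_range (by omega) hp.1
    rw [hp.2] at h2 h3
    exact ⟨(Real.rpow_le_rpow_of_exponent_le hN1.le hS1).trans h2,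
      h3.trans (Real.rpow_le_rpow_of_exponent_le hN1.le hS2)⟩
  refine ⟨α, β, ?_, ?_, ?_, ?_⟩
  · intro k hk
    exact (Real.rpow_le_rpow_of_exponent_le hN1.le (by linarith)).trans (hαk k hk).1
  · intro k hk
    by_contra hcon
    apply hk
    simp only [hβ]
    rw [if_neg]
    rintro ⟨h1, _⟩
    exact hcon h1
  · intro k
    have hLM : M ≤ Real.log N ^ 2 := by nlinarith
    constructor
    · by_cases hk : α k = 0
      · rw [hk, abs_zero]
        positivity
      · obtain ⟨h1, h2⟩ := hαk k hk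
        have hk1 : 1 ≤ k := by
          have h3 : (0 : ℝ) < k := lt_of_lt_of_le (by positivity) h1
          exact_mod_cast h3
        have h3 : (k : ℝ) ≤ (N : ℝ) ^ (4 : ℝ) :=
          h2.trans (Real.rpow_le_rpow_of_exponent_le hN1.le (by linarith))
        have h4 := TLF_card N (by omega) a b κ hκ hκa S k hk1 h3
        have h5 : α k ≤ (#(TLF_P N a b S k) : ℝ) := by
          simp only [hα]
          exact_mod_cast Finset.card_filter_le _ _
        have h6 : 0 ≤ α k := by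
          simp only [hα]
          positivity
        rw [abs_of_nonneg h6]
        linarith
    · by_cases hk : (N : ℝ) ^ (1 + δ / 2) ≤ k ∧ k ≤ 64 * N ^ 3
      · simp only [hβ]
        rw [if_pos hk]
        have hk1 : 1 ≤ k := by
          have h3 : (0 : ℝ) < k := lt_of_lt_of_le (by positivity) hk.1
          exact_mod_cast h3
        have hk2 : (k : ℝ) ≤ 64 * (N : ℝ) ^ 3 := by exact_mod_cast hk.2
        have h3 : (k : ℝ) ≤ (N : ℝ) ^ (4 : ℝ) := by
          rw [hN4]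
          have : 0 ≤ (N : ℝ) ^ 3 := by positivity
          nlinarith
        have h4 := TLF_card N (by omega) a b κ hκ hκa Sᶜ k hk1 h3
        have h5 : Real.log k ≤ 4 * Real.log N := by
          have h6 := Real.log_le_log (by exact_mod_cast hk1) h3
          rwa [Real.log_rpow hN0] at h6
        have h7 : ∀ p ∈ TLF_P N a b Sᶜ k, (vonMangoldt (k / ∏ i, p i) : ℝ) ≤ 4 * Real.log N := by
          intro p hp
          refine vonMangoldt_le_log.trans ?_
          refine le_trans ?_ h5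
          rcases Nat.eq_zero_or_pos (k / ∏ i, p i) with h8 | h8
          · rw [h8, Nat.cast_zero, Real.log_zero]
            exact Real.log_natCast_nonneg k
          · exact Real.log_le_log (by exact_mod_cast h8) (by exact_mod_cast Nat.div_le_self _ _)
        have h8 : 0 ≤ ∑ p ∈ TLF_P N a b Sᶜ k, (vonMangoldt (k / ∏ i, p i) : ℝ) :=
          Finset.sum_nonneg fun _ _ => vonMangoldt_nonneg
        rw [abs_of_nonneg h8]
        refine (Finset.sum_le_card_nsmul _ _ _ h7).trans ?_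
        rw [nsmul_eq_mul]
        have h9 : 0 ≤ Real.log N := by linarith
        calc (#(TLF_P N a b Sᶜ k) : ℝ) * (4 * Real.log N) ≤ M * (4 * Real.log N) :=
              mul_le_mul_of_nonneg_right h4 (by linarith)
          _ ≤ Real.log N ^ 2 := by nlinarith
      · simp only [hβ]
        rw [if_neg hk, abs_zero]
        positivity
  · intro j hj
    have hj' : N ^ 3 < j ∧ j ≤ (N + 1) ^ 3 := by
      rw [Win, Finset.mem_Ioc] at hj
      exact hj
    have hj0 : j ≠ 0 := by omega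
    have hj64 : j ≤ 64 * N ^ 3 := by
      refine hj'.2.trans ?_
      have h1 : N + 1 ≤ 4 * N := by omega
      calc (N + 1) ^ 3 ≤ (4 * N) ^ 3 := Nat.pow_le_pow_left h1 3
        _ = 64 * N ^ 3 := by ring
    have hTL : TL N a b j = ∑ p ∈ TUP N a b j, (vonMangoldt (j / ∏ i, p i) : ℝ) := rfl
    have hmap : ∀ p ∈ TUP N a b j, ∏ i ∈ S, p i ∈ j.divisors := by
      intro p hp
      unfold TUP at hp
      rw [Finset.mem_filter] at hp
      rw [Nat.mem_divisors]
      refine ⟨?_, hj0⟩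
      exact (Finset.prod_dvd_prod_of_subset _ _ _ (Finset.subset_univ S)).trans hp.2.2
    rw [hTL, ← Finset.sum_fiberwise_of_maps_to hmap]
    rw [cvl, Nat.sum_divisorsAntidiagonal (fun x y => α x * β y)]
    refine Finset.sum_congr rfl fun k hk => ?_
    rw [Nat.mem_divisors] at hk
    rw [TLF_split N a b S j k hj0 hk.1, Finset.sum_product]
    dsimp only
    rw [Finset.sum_const, nsmul_eq_mul]
    have hαdef : (#((TLF_P N a b S k).filter fun p => ∏ i, p i = k) : ℝ) = α k := rfl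
    rw [hαdef]
    by_cases hα0 : α k = 0
    · rw [hα0, zero_mul, zero_mul]
    · obtain ⟨h1, h2⟩ := hαk k hα0
      congr 1
      simp only [hβ]
      rw [if_pos]
      obtain ⟨e, rfl⟩ := hk.1
      have hk0 : 0 < k := by
        rcases Nat.eq_zero_or_pos k with h | h
        · rw [h, zero_mul] at hj0
          exact absurd rfl hj0
        · exact h
      rw [Nat.mul_div_cancel_left e hk0]
      constructor
      · have h3 : (N : ℝ) ^ (3 : ℝ) ≤ (k : ℝ) * e := by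
          have h4 : N ^ 3 ≤ k * e := hj'.1.le
          have h5 : ((N ^ 3 : ℕ) : ℝ) ≤ ((k * e : ℕ) : ℝ) := by exact_mod_cast h4
          push_cast at h5
          have h6 : (N : ℝ) ^ (3 : ℝ) = (N : ℝ) ^ 3 := by
            rw [← Real.rpow_natCast]
            norm_num
          rw [h6]
          exact h5
        have h4 : (N : ℝ) ^ (3 : ℝ) = (N : ℝ) ^ (2 - δ) * (N : ℝ) ^ (1 + δ) := by
          rw [← Real.rpow_add hN0]
          congr 1
          ring
        have h5 : (N : ℝ) ^ (2 - δ) * (N : ℝ) ^ (1 + δ) ≤ (N : ℝ) ^ (2 - δ) * e := by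
          rw [← h4]
          exact h3.trans (mul_le_mul_of_nonneg_right h2 (Nat.cast_nonneg e))
        have h6 : (N : ℝ) ^ (1 + δ) ≤ e := le_of_mul_le_mul_left h5 (by positivity)
        exact (Real.rpow_le_rpow_of_exponent_le hN1.le (by linarith)).trans h6
      · have : e ≤ k * e := Nat.le_mul_of_pos_left e hk0
        omega

end Pool.Agent.EC
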