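import Pool.Agent.helper26.EC.SpecE

set_option autoImplicit false

namespace Pool.Agent.EC

open Finset ArithmeticFunction
open Pool.Agent.CH (Win rgh dl eU Mo ClP ClB)

theorem RCS_pow (k : ℕ) : ∃ N₀ : ℕ, ∀ N : ℕ, N₀ ≤ N → 3 ≤ Real.log N ∧ Real.log N ^ k ≤ (N : ℝ) := by
  have h1 : ∀ᶠ x : ℝ in Filter.atTop, ‖Real.log x ^ k‖ ≤ 1 * ‖x‖ :=
    (Real.isLittleO_pow_log_id_atTop (n := k)).bound (c := 1) one_pos
  have h2 : ∀ᶠ x : ℝ in Filter.atTop, 3 ≤ Real.log x := Real.tendsto_log_atTop.eventually_ge_atTop 3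
  have h3 := (tendsto_natCast_atTop_atTop (R := ℝ)).eventually (h1.and h2)
  rw [Filter.eventually_atTop] at h3
  obtain ⟨N₀, hN₀⟩ := h3
  refine ⟨N₀, fun N hN => ?_⟩
  obtain ⟨h4, h5⟩ := hN₀ N hN
  refine ⟨h5, ?_⟩
  rw [one_mul, Real.norm_of_nonneg (by positivity), Real.norm_of_nonneg (Nat.cast_nonneg N)] at h4
  exact h4

theorem RCS (hRC : Pool.Agent.CH.RC_stmt) : RCS_stmt := by
  classical
  intro C
  obtain ⟨C₁, hC₁, hRC⟩ := hRC
  have hlog2 : 0 < Real.log 2 := Real.log_pos (by norm_num)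
  obtain ⟨N₀, hN₀⟩ := RCS_pow (2 * C + 1)
  refine ⟨(1 + 2 * C₁) * (3 * C / Real.log 2 + 1), by positivity, N₀, fun N hN => ?_⟩
  obtain ⟨hL3, hpow⟩ := hN₀ N hN
  set L : ℝ := Real.log N with hL
  have hL0 : 0 < L := by linarith
  have hLL : 1 ≤ Real.log L := by
    have h1 : Real.exp 1 ≤ L := (Real.exp_one_lt_d9.le.trans (by norm_num)).trans hL3
    have := Real.log_le_log (Real.exp_pos 1) h1
    rwa [Real.log_exp] at this
  set D : ℝ := dl N with hD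
  have hDdef : D = L ^ (19 / 20 : ℝ) := rfl
  have hD1 : 1 ≤ D := by
    rw [hDdef]
    exact Real.one_le_rpow (by linarith) (by norm_num)
  have hDL : D ≤ L := by
    rw [hDdef]
    have := Real.rpow_le_rpow_of_exponent_le (x := L) (y := 19 / 20) (z := 1) (by linarith) (by norm_num)
    rwa [Real.rpow_one] at this
  set u₀ : ℝ := (N : ℝ) / L ^ (2 * C) with hu₀
  have hLu : L ≤ u₀ := by
    rw [hu₀, le_div_iff₀ (by positivity), ← pow_succ']
    exact hpow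
  have hDu : D ≤ u₀ := hDL.trans hLu
  have hu0 : 0 < u₀ := by linarith
  have hN0 : (0 : ℝ) < N := by
    have : 0 < L ^ (2 * C + 1) := by positivity
    linarith
  set I : ℕ := ⌊3 * C * Real.log L / Real.log 2⌋₊ + 1 with hI
  have hIle : (I : ℝ) ≤ (3 * C / Real.log 2 + 1) * Real.log L := by
    have h1 : (⌊3 * C * Real.log L / Real.log 2⌋₊ : ℝ) ≤ 3 * C * Real.log L / Real.log 2 :=
      Nat.floor_le (by positivity)
    rw [hI]
    push_cast
    have h2 : (3 * C / Real.log 2 + 1) * Real.log L = 3 * C * Real.log L / Real.log 2 + Real.log L := by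
      field_simp
    rw [h2]
    linarith
  set S : Finset ℕ := (Icc 1 (UN C N)).filter (fun c : ℕ => (N : ℝ) / L ^ (2 * C) ≤ (c : ℝ) ∧ rgh (yN N) c) with hS
  have hSmem : ∀ c ∈ S, 1 ≤ c ∧ c ≤ UN C N ∧ u₀ ≤ (c : ℝ) ∧ rgh (yN N) c := by
    intro c hc
    rw [hS, Finset.mem_filter, Finset.mem_Icc] at hc
    exact ⟨hc.1.1, hc.1.2, hc.2.1, hc.2.2⟩
  -- every `c` lies in a block
  have hblock : ∀ c ∈ S, ∃ i ∈ range I, u₀ * 2 ^ i ≤ (c : ℝ) ∧ (c : ℝ) < u₀ * 2 ^ (i + 1) := by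
    intro c hc
    obtain ⟨h1, h2, h3, _⟩ := hSmem c hc
    have h4 : 1 ≤ (c : ℝ) / u₀ := by rwa [le_div_iff₀ hu0, one_mul]
    obtain ⟨i, hi1, hi2⟩ := exists_nat_pow_near h4 (by norm_num : (1 : ℝ) < 2)
    rw [le_div_iff₀ hu0] at hi1
    rw [div_lt_iff₀ hu0] at hi2
    refine ⟨i, ?_, by linarith, by linarith⟩
    have h5 : (c : ℝ) ≤ N * L ^ C := by
      have h6 : ((UN C N : ℕ) : ℝ) ≤ N * L ^ C := Nat.floor_le (by positivity)
      have h7 : (c : ℝ) ≤ ((UN C N : ℕ) : ℝ) := by exact_mod_cast h2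
      linarith
    have h6 : (2 : ℝ) ^ i ≤ L ^ (3 * C) := by
      have h7 : (2 : ℝ) ^ i * u₀ ≤ N * L ^ C := hi1.trans h5
      have h8 : (N : ℝ) * L ^ C = L ^ (3 * C) * u₀ := by
        rw [hu₀]
        have : L ^ (3 * C) = L ^ (2 * C) * L ^ C := by
          rw [← pow_add]
          congr 1
          ring
        rw [this]
        field_simp
      rw [h8] at h7
      exact le_of_mul_le_mul_right h7 hu0
    have h7 : (i : ℝ) * Real.log 2 ≤ 3 * C * Real.log L := by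
      have := Real.log_le_log (by positivity) h6
      rw [Real.log_pow, Real.log_pow] at this
      push_cast at this
      linarith
    rw [Finset.mem_range, hI]
    have h8 : (i : ℝ) ≤ 3 * C * Real.log L / Real.log 2 := by
      rwa [le_div_iff₀ hlog2]
    exact Nat.lt_succ_of_le (Nat.le_floor h8)
  have hy : Real.log (yN N) = D := by rw [yN, Real.log_exp]
  have hy2 : 2 ≤ yN N := by
    rw [yN]
    have h1 : Real.exp 1 ≤ Real.exp (dl N) := Real.exp_le_exp.mpr hD1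
    have h2 := Real.exp_one_gt_d9
    linarith
  -- one block
  have hone : ∀ i : ℕ, ∑ c ∈ S, (if u₀ * 2 ^ i ≤ (c : ℝ) ∧ (c : ℝ) < u₀ * 2 ^ (i + 1) then 1 / (c : ℝ) else 0) ≤
      (1 + 2 * C₁) / D := by
    intro i
    rw [← Finset.sum_filter]
    have hpi : (1 : ℝ) ≤ 2 ^ i := one_le_pow₀ (by norm_num)
    have hui : 0 < u₀ * 2 ^ i := by positivity
    have hui1 : D ≤ u₀ * 2 ^ i := by nlinarith
    have h1 : ∑ c ∈ S.filter (fun c : ℕ => u₀ * 2 ^ i ≤ (c : ℝ) ∧ (c : ℝ) < u₀ * 2 ^ (i + 1)), 1 / (c : ℝ) ≤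
        #(S.filter fun c : ℕ => u₀ * 2 ^ i ≤ (c : ℝ) ∧ (c : ℝ) < u₀ * 2 ^ (i + 1)) • (1 / (u₀ * 2 ^ i)) := by
      refine Finset.sum_le_card_nsmul _ _ _ fun c hc => ?_
      rw [Finset.mem_filter] at hc
      exact one_div_le_one_div_of_le hui hc.2.1
    have h2 : (#(S.filter fun c : ℕ => u₀ * 2 ^ i ≤ (c : ℝ) ∧ (c : ℝ) < u₀ * 2 ^ (i + 1)) : ℝ) ≤
        1 + C₁ * (u₀ * 2 ^ (i + 1)) / D := by
      have h3 := hRC (yN N) (u₀ * 2 ^ (i + 1)) hy2 (by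
        have : u₀ * 2 ^ (i + 1) = 2 * (u₀ * 2 ^ i) := by ring
        rw [this]
        linarith)
      rw [hy] at h3
      refine le_trans ?_ h3
      have h4 : (S.filter fun c : ℕ => u₀ * 2 ^ i ≤ (c : ℝ) ∧ (c : ℝ) < u₀ * 2 ^ (i + 1)) ⊆
          (Ioc 0 ⌊u₀ * 2 ^ (i + 1)⌋₊).filter fun n => rgh (yN N) n := by
        intro c hc
        rw [Finset.mem_filter] at hc
        obtain ⟨h5, _, _, h8⟩ := hSmem c hc.1
        rw [Finset.mem_filter, Finset.mem_Ioc]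
        exact ⟨⟨h5, Nat.le_floor hc.2.2.le⟩, h8⟩
      exact_mod_cast Finset.card_le_card h4
    refine h1.trans ?_
    rw [nsmul_eq_mul]
    have hD0 : 0 < D := by linarith
    have h5 : (1 + C₁ * (u₀ * 2 ^ (i + 1)) / D) * (1 / (u₀ * 2 ^ i)) = 1 / (u₀ * 2 ^ i) + 2 * C₁ / D := by
      rw [pow_succ]
      field_simp
    have h6 : 1 / (u₀ * 2 ^ i) ≤ 1 / D := one_div_le_one_div_of_le hD0 hui1
    calc _ ≤ (1 + C₁ * (u₀ * 2 ^ (i + 1)) / D) * (1 / (u₀ * 2 ^ i)) :=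
          mul_le_mul_of_nonneg_right h2 (by positivity)
      _ = 1 / (u₀ * 2 ^ i) + 2 * C₁ / D := h5
      _ ≤ 1 / D + 2 * C₁ / D := by linarith
      _ = (1 + 2 * C₁) / D := by ring
  have hD0 : 0 < D := by linarith
  calc ∑ c ∈ S, 1 / (c : ℝ)
      ≤ ∑ c ∈ S, ∑ i ∈ range I, (if u₀ * 2 ^ i ≤ (c : ℝ) ∧ (c : ℝ) < u₀ * 2 ^ (i + 1) then 1 / (c : ℝ) else 0) := by
        refine Finset.sum_le_sum fun c hc => ?_
        obtain ⟨i, hi, h1⟩ := hblock c hc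
        have h2 : (if u₀ * 2 ^ i ≤ (c : ℝ) ∧ (c : ℝ) < u₀ * 2 ^ (i + 1) then 1 / (c : ℝ) else 0) = 1 / (c : ℝ) :=
          if_pos h1
        refine le_trans (le_of_eq h2.symm) ?_
        refine Finset.single_le_sum (f := fun i =>
          if u₀ * 2 ^ i ≤ (c : ℝ) ∧ (c : ℝ) < u₀ * 2 ^ (i + 1) then 1 / (c : ℝ) else 0) (fun j _ => ?_) hi
        split_ifs
        · positivity
        · exact le_refl _
    _ = ∑ i ∈ range I, ∑ c ∈ S, (if u₀ * 2 ^ i ≤ (c : ℝ) ∧ (c : ℝ) < u₀ * 2 ^ (i + 1) then 1 / (c : ℝ) else 0) :=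
        Finset.sum_comm
    _ ≤ ∑ _i ∈ range I, (1 + 2 * C₁) / D := Finset.sum_le_sum fun i _ => hone i
    _ = (I : ℝ) * ((1 + 2 * C₁) / D) := by rw [Finset.sum_const, Finset.card_range, nsmul_eq_mul]
    _ ≤ (3 * C / Real.log 2 + 1) * Real.log L * ((1 + 2 * C₁) / D) :=
        mul_le_mul_of_nonneg_right hIle (by positivity)
    _ = (1 + 2 * C₁) * (3 * C / Real.log 2 + 1) * Real.log L / D := by ring

end Pool.Agent.EC
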